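import Pool.Agent.Helper23.QF.Goals

/-! # Project QF, packet CFINV: complete quotients from the digits. -/

set_option autoImplicit false

namespace Pool.Agent.Helper34.QF

open Pool.Agent.Helper23.QF

/-- one step of the Gauss map -/
noncomputable def gs (v : ℝ) : ℝ := (Int.fract v)⁻¹

theorem s_get (n : ℕ) : ∀ x : ℝ, (GenContFract.of x).s.get? n = (GenContFract.of (gs^[n] x)).s.get? 0 := by
  induction n with
  | zero => intro x; rfl
  | succ n ih =>
    intro x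
    rw [GenContFract.of_s_succ, Function.iterate_succ_apply, ← ih]
    rfl

theorem step (a b : ℕ) (x : ℝ) (n : ℕ)
    (h : (GenContFract.of x).partDens.get? n = some (a : ℝ) ∨
      (GenContFract.of x).partDens.get? n = some (b : ℝ)) :
    Int.fract (gs^[n] x) ≠ 0 ∧ (⌊gs^[n + 1] x⌋ = (a : ℤ) ∨ ⌊gs^[n + 1] x⌋ = (b : ℤ)) := by
  have h1 : ∃ gp, (GenContFract.of (gs^[n] x)).s.get? 0 = some gp ∧ (gp.b = (a : ℝ) ∨ gp.b = (b : ℝ)) := by
    rcases h with h | h
    · obtain ⟨gp, h1, h2⟩ := GenContFract.exists_s_b_of_partDen h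
      exact ⟨gp, by rw [← s_get, h1], Or.inl h2⟩
    · obtain ⟨gp, h1, h2⟩ := GenContFract.exists_s_b_of_partDen h
      exact ⟨gp, by rw [← s_get, h1], Or.inr h2⟩
  obtain ⟨gp, h1, h2⟩ := h1
  have h0 : Int.fract (gs^[n] x) ≠ 0 := by
    intro h0
    obtain ⟨c, hc⟩ : ∃ c : ℤ, gs^[n] x = c := ⟨⌊gs^[n] x⌋, eq_of_sub_eq_zero h0⟩
    rw [hc, GenContFract.of_s_of_int] at h1
    simp at h1
  refine ⟨h0, ?_⟩
  have h3 := GenContFract.of_s_head h0
  have h4 : (GenContFract.of (gs^[n] x)).s.get? 0 =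
      some ⟨1, ((⌊(Int.fract (gs^[n] x))⁻¹⌋ : ℤ) : ℝ)⟩ := h3
  rw [h4] at h1
  have h5 := Option.some.inj h1
  have h6 : gp.b = ((⌊gs^[n + 1] x⌋ : ℤ) : ℝ) := by
    rw [← h5, Function.iterate_succ_apply']
    rfl
  rcases h2 with h2 | h2
  · left
    rw [h6] at h2
    exact_mod_cast h2
  · right
    rw [h6] at h2
    exact_mod_cast h2

theorem gCFINV : GCFINV := by
  intro a b x ha hb hx
  have hs := fun n => step a b x n (hx n)
  refine ⟨fun n => gs^[n + 1] x, fun n => (⌊gs^[n + 1] x⌋).toNat, ?_, ?_, ?_, ?_⟩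
  · intro i
    dsimp only
    rw [Function.iterate_succ_apply']
    have h1 := (hs i).1
    have h2 : 0 < Int.fract (gs^[i] x) := lt_of_le_of_ne (Int.fract_nonneg _) (Ne.symm h1)
    exact (one_lt_inv₀ h2).2 (Int.fract_lt_one _)
  · intro i
    dsimp only
    rcases (hs i).2 with h | h
    · left; rw [h]; rfl
    · right; rw [h]; rfl
  · dsimp only
    have : gs^[0 + 1] x = (Int.fract x)⁻¹ := rfl
    rw [this, one_div, inv_inv, Int.floor_add_fract]
  · intro i
    dsimp only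
    have h1 : gs^[i + 1 + 1] x = (Int.fract (gs^[i + 1] x))⁻¹ := by
      rw [Function.iterate_succ_apply']; rfl
    rw [h1, one_div, inv_inv]
    have h2 : (((⌊gs^[i + 1] x⌋).toNat : ℕ) : ℝ) = ((⌊gs^[i + 1] x⌋ : ℤ) : ℝ) := by
      have h3 : (0 : ℤ) ≤ ⌊gs^[i + 1] x⌋ := by
        rcases (hs i).2 with h | h <;> rw [h] <;> positivity
      have h4 : (((⌊gs^[i + 1] x⌋).toNat : ℕ) : ℤ) = ⌊gs^[i + 1] x⌋ := Int.toNat_of_nonneg h3
      exact_mod_cast h4
    rw [h2, Int.floor_add_fract]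

end Pool.Agent.Helper34.QF
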